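import Pool.Agent.U131.SX.Fin

/-!
# Tate's refined conjecture at one auxiliary prime gives Stark's conjecture at all of them

`F` is a number field, `H/F` a finite abelian extension, `ι` gives a real place of `F` which splits
completely in `H`, `w` another real place of `F` and `z` the complex conjugation above `w`; `𝔣` is a
nonzero ideal of `F` divisible by the primes ramified in `H`, `Z σ` are the partial zeta functions
for the places dividing `𝔣` and infinity.  `Hecke` contains known facts: continuation, `Z σ 0 = 0`,
and the double zero of `Z σ + Z (z σ)` at `0` (for `𝔣 ≠ 1`).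

`StarkTate` for `𝔣 𝔮` is Tate's refined conjecture for `H/F` and the places dividing `𝔣 𝔮` and
infinity (`H` has a real place, so it contains two roots of unity), `StarkAbs` the same without the
condition on the square root.
-/

set_option autoImplicit false

namespace Pool.Agent.Results.MP_ca56d1_nt.AuxiliaryPrimes

open NumberField Pool.Agent.U131.SX Pool.Agent.U131.SR.Lay
open Pool.Agent.K4H33.SK (Qbar GQ)
open Pool.Agent.K4H33.SK.Stmt (Sub Ideals prd)

theorem result (ι w : Qbar →+* ℂ) (F H : Sub) [NumberField F] (𝔣 : Ideals F)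
    (art : Ideals F → GQ) (z : GQ) (Z : GQ → ℂ → ℂ) (h : Setting ι w F H 𝔣 art z Z)
    (𝔮 : Ideals F) (hq : Aux F 𝔣 𝔮) (hz : Agree H (art 𝔮) z)
    (hT : StarkTate ι F H (prd F 𝔣 𝔮) art) (𝔭 : Ideals F) (hp : Aux F 𝔣 𝔭) :
    StarkAbs ι F H (prd F 𝔣 𝔭) art :=
  (conclusion h).all (((conclusion h).one 𝔮 hq hz).1 hT) 𝔭 hp

end Pool.Agent.Results.MP_ca56d1_nt.AuxiliaryPrimes
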