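import Pool.Agent.U131.SR.Lay

/-!
# Tate's refined Stark conjecture over real quadratic fields

`Qbar` is an algebraic closure of `ℚ`, `ι : Qbar → ℂ` an embedding, `GQ` the group of automorphisms
of `Qbar`; all fields are subfields of `Qbar` and Galois groups are described by `GQ`.

* `Fields`: `F` is a quadratic field, `H/F` is a finite abelian extension which is real at `ι` and
  complex at some place (so `F` is real quadratic, the place given by `ι` splits completely in `H`
  and the other real place does not split), `N` is the normal closure of `H` over `ℚ`, `M` is an
  imaginary quadratic subfield of `N` and `N/M` is abelian; `f` is divisible by all primes ramified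
  in `N`, and the maximal abelian subfield of `N` is contained in the `f`-th cyclotomic field.
* `OddOrFour`: if `f` is even, then `4` divides `f` and the maximal abelian subfield of `N` is
  contained in the `f / 4`-th cyclotomic field (only the primes dividing `f` matter in the
  conclusion).
* `HasUnramified`: some prime divisor of `f` is unramified in `M`.
* `StarkTheorem` is Stark's theorem for the abelian extension `N` of the imaginary quadratic field
  `M` and the places dividing `f` and infinity.

The conclusion `StarkRQ` is Tate's refined rank one abelian Stark conjecture for `H/F`, the places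
dividing `𝔣` and infinity, and the place given by `ι`; `𝔣` is any nonzero ideal divisible by all
primes of `F` dividing `f`.
-/

set_option autoImplicit false

namespace Pool.Agent.Results.MP_ca56d1_nt.RealQuadraticBase

open Pool.Agent.U131.SR.Lay
open Pool.Agent.K4H33.SK (Qbar GQ)
open Pool.Agent.K4H33.SK.Stmt (Sub Ideals)
open NumberField

theorem result (ι : Qbar →+* ℂ) (F H M N : Sub) [NumberField F] [NumberField M] (f : ℕ)
    (hF : Fields ι F H M N f) (hf : OddOrFour N f) (hl : HasUnramified M f)
    (artF : Ideals F → GQ) (artM : Ideals M → GQ) (hart : Symbols F M N f artF artM)
    (hS : StarkTheorem ι M N f artM) (𝔣 : Ideals F) (h𝔣 : Over F f 𝔣) :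
    StarkRQ ι F H 𝔣 artF :=
  stark ι F H M N f hF hf hl artF artM hart hS 𝔣 h𝔣

end Pool.Agent.Results.MP_ca56d1_nt.RealQuadraticBase
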