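import Pool.Agent.U755.ST.Main

/-!
# Refined Stark units over almost totally real fields from Stark units over totally real fields

`Qbar` is an algebraic closure of `ℚ` and `ι : Qbar → ℂ` an embedding. All fields are subfields of
`Qbar`, and Galois groups are described by the automorphisms `GQ` of `Qbar`.

Let `F` be a totally real field, and let `K` be a quadratic extension of `F` which is complex
at the real place of `F` given by `ι` and has a real embedding. (If `K` has more than one complex
place, all derivatives in the conjecture for `K` vanish; so the case of interest is the one
of the almost totally real fields `K`, with exactly one complex place.) Let `H` be an abelian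
extension of `F` which contains `K`. Let `M` be the field of all elements of `H` fixed by the complex
conjugation for `ι`. Then `ι` is real on `M`, and `H = K ⊔ M`. This is the setting of the structure
`Fields`. The group of `H` over `K` is isomorphic to the one of `M` over `F`; it can be any finite
abelian group, in particular it need not be of exponent two. Let `𝔣` be a nonzero ideal of `F`
divisible by all primes which are ramified in `H` (`Symbols`).

**Theorem.** If the basic form of the rank one abelian Stark conjecture holds for the extension `M`
of the totally real field `F`, the real place `ι`, and the set of the infinite places and of the
primes dividing `𝔣` (`StarkReal`), then the rank one abelian Stark conjecture in Tate's refined form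
holds for the extension `H = K ⊔ M` of `K`, the complex place `ι`, and the set of the infinite
places and of the primes dividing `𝔣` (`StarkATR`).

So the abelian root property (the extension of `K` generated by the `W`-th roots of the Stark unit is
abelian, where `W` is the number of roots of unity of `H`) is proved over `K` for all these
extensions, although it is not assumed over `F`; only the basic form over `F` is needed. The
conjecture over `F` is `StarkReal` if there are at least three places in `S`. It is known, for
example, if `M` is quadratic over `F` (Tate), in most cases if the group of `M` over `F` has exponent
two (Sands; Dummit, Sands and Tangedal), and, if `F` is real quadratic, for the fields `M` which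
are contained in an abelian extension of an imaginary quadratic field which is normal over `ℚ`
(Stark, Shintani). The other hypotheses are theorems:

* `DeligneRibet` is the theorem of Siegel, Klingen and Deligne–Ribet on the values at `0` of the
  partial zeta functions of the extension `H` of the totally real field `F`.
* `ArtinFactorization` is the factorization `L_K(s, χ|_K) = L_F(s, χ) L_F(s, χ ψ)` for all
  characters `χ` of `M` over `F`, where `ψ` is the quadratic character of `K` over `F`, written in
  terms of the coefficients of the partial zeta functions.

The proof. Let `ε` be the unit for `M` over `F`. Let `w` be a real embedding of `K`. Then `w` and `ι`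
are different on `F`, so `ε` has absolute value one at all embeddings which extend `w`; the complex
conjugation `c₀` for such an embedding is an element of the group `G` of `H` over `K`, and
`c₀ ε = ε⁻¹`. The sum `θ` of the `ζ(0, σ) σ⁻¹` over all `σ` in `G`, where `ζ(s, σ)` is the partial
zeta function of the extension `H` of `F`, is the part of the Stickelberger element of `H`
over `F` which lies over `G`; we have `c₀ θ = - θ`, `W θ` is in the integral group ring of `G`, and so
is `(σ - n) θ` if `σ` acts on the roots of unity of `H` as the `n`-th power map. Since both
`ε` and `W θ` are odd with respect to `c₀`, the factors of `ε ^ (W θ)` for `g` and `c₀ g` are equal,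
and `ε ^ (W θ)` is the square of the product of the `(g⁻¹ ε) ^ (W ζ(0, g))` over representatives `g`
of `G` modulo `c₀`, which does not depend on their choice (if `c₀` is trivial on `H`, then
`θ = 0`, and the unit is `1`). This square root is the Stark unit over `K`: the limit formula
follows from the Artin factorization, and the abelian root property from the integrality of the
`(σ - n) θ`.
-/

set_option autoImplicit false

namespace Pool.Agent.Results.MP_ca56d1_nt.RefinedFromReal

open NumberField Pool.Agent.U755.ST
open Pool.Agent.K4H33.SK (Qbar GQ IsTorsionOrder)
open Pool.Agent.K4H33.SK.Stmt (Sub Ideals)
open Pool.Agent.K4H33.SQ (DeligneRibet StarkATR)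

theorem result (ι : Qbar →+* ℂ) (F K M : Sub) [NumberField F] [NumberField K] [NumberField M]
    (hF : Fields ι F K M) (𝔣 : Ideals F) (artF : Ideals F → GQ) (artK : Ideals K → GQ)
    (_hart : Symbols F K M 𝔣 artF artK) (hA : ArtinFactorization F K M 𝔣 artF artK)
    (hDR : DeligneRibet F (K ⊔ M) 𝔣 artF) (hS : StarkReal ι F M 𝔣 artF) (W : ℕ)
    (hW : IsTorsionOrder (K ⊔ M) W) : StarkATR ι K (K ⊔ M) (extend F K 𝔣) artK W :=
  stark_base_change ι F K M hF 𝔣 artF artK hA hDR hS W hW

end Pool.Agent.Results.MP_ca56d1_nt.RefinedFromReal
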